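import Mathlib
import Pool.Agent.H14.GirthC

set_option autoImplicit false

namespace Pool.Agent.Results.MP_eff4ce_al.Rank8

open Pool.Agent.H14.CommDiam Pool.Agent.H14.Girth in
theorem result : ∃ C : ℕ, ∀ k : ℕ, ∃ (T : Type) (_ : Semigroup T), Finite T ∧ RankLE T C ∧
    (∀ v, ∃ w, w ≠ v ∧ ¬ (commGraph T).Adj v w) ∧ ¬ (commGraph T).IsAcyclic ∧
    k ≤ (commGraph T).girth := by
  refine ⟨8, fun k => ⟨Pool.Agent.H14.Girth.S (2 * k + 2), inferInstance, inferInstance,
    Pool.Agent.H14.Girth.rank, fun v => ?_, not_acyclic (by omega) (by omega), ?_⟩⟩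
  · obtain ⟨b, hb⟩ := not_forall.1 (mt Semigroup.mem_center_iff.2 v.2)
    refine ⟨⟨b, fun h => hb (Semigroup.mem_center_iff.1 h _).symm⟩, ?_, fun h => hb h.2.symm⟩
    intro h
    exact hb (by rw [show b = v.1 from congrArg Subtype.val h])
  · obtain ⟨a, w, hw, e⟩ := SimpleGraph.exists_girth_eq_length.2
      (not_acyclic (m := 2 * k + 2) (by omega) (by omega))
    have := girth_ge (by omega) w hw
    omega

end Pool.Agent.Results.MP_eff4ce_al.Rank8
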